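import Pool.Agent.L0h32.UZ.Stm
import Pool.Agent.L0h34.UX.PTH

/-!
# Project UZ: MVV, all moves preserve the invariants
-/

set_option autoImplicit false
set_option linter.all false

namespace Pool.Agent.L0h34.UZ

open Relation
open Pool.Agent.H630R2.LA (LimAut Sym Cfg Step init initTape WS lrel bitS ix nr Ann keep)
open Pool.Agent.L0h32.UX
open Pool.Agent.L0h32.UZ

section

variable {A : Type} {h : ℕ} {rel : A → Fin (2 ^ h) → Fin (2 ^ h) → Bool} {p0 : Fin (2 ^ h)}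
  {facc : Fin (2 ^ h) → Bool} {K : ℕ} {W : ℕ → ℕ → Fin (2 ^ h) → Fin (2 ^ h) → ℕ}
  {w : List A} {t : ℕ}

theorem mok_mem0 (hMV0 : S_MV0) (hK : 0 < K) {m : Mem} (hm : MOK h rel p0 facc K W w t m) :
    MOK h rel p0 facc K W w t (mem0 h p0 facc m.x m.fin 0) :=
  hMV0 A h rel p0 facc K W w t 0 m.x m.fin hK hm.1 hm.2.1 hm.2.2.1

theorem ee_le {m : Mem} (hm : MOK h rel p0 facc K W w t m) (hl : m.l < Ly h m) :
    bt h t m + EE h m.x m.fin = t + 1 := by
  obtain ⟨hW, hfn, hft, -⟩ := hm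
  obtain ⟨hfi, hk, -⟩ := hW
  have := (Pool.Agent.L0h34.UX.geo (len := w.length) hfi hk hfn hft hl).1
  unfold bt
  omega

theorem loc_ok {s : St h} {m : Mem} {i x : ℕ} (hs : loc h s = some (m, i))
    (hok : SOK h rel p0 facc K W w t s x) :
    MOK h rel p0 facc K W w t m ∧ m.l < Ly h m ∧ x = bt h t m + i := by
  cases s with
  | rA m' i' =>
    simp only [loc, Option.some.injEq, Prod.mk.injEq] at hs
    obtain ⟨rfl, rfl⟩ := hs
    obtain ⟨h1, h2, -, -, -, h3⟩ := hok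
    exact ⟨h1, h2, h3⟩
  | rB m' p i' =>
    simp only [loc, Option.some.injEq, Prod.mk.injEq] at hs
    obtain ⟨rfl, rfl⟩ := hs
    obtain ⟨h1, h2, -, -, -, h3, -⟩ := hok
    exact ⟨h1, h2, h3⟩
  | rC m' p v i' =>
    simp only [loc, Option.some.injEq, Prod.mk.injEq] at hs
    obtain ⟨rfl, rfl⟩ := hs
    obtain ⟨h1, h2, -, -, -, -, h3, -⟩ := hok
    exact ⟨h1, h2, h3⟩
  | wr x => simp [loc] at hs
  | hm m' => simp [loc] at hs
  | h1 m' => simp [loc] at hs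
  | rR m' i' => simp [loc] at hs
  | ex x => simp [loc] at hs
  | f1 b => simp [loc] at hs
  | fin b => simp [loc] at hs

end

theorem t_MVV : S_MOV → S_MV0 → S_MVV := by
  intro hMOV hMV0 A h rel p0 facc K W w t τ hK ht hA s s' x x' b d hs htr hd1 hd2
  cases htr with
  | old _ _ _ _ _ ht' => exact hMOV A h rel p0 facc K W w t τ ht hA s s' x x' b d hs ht' hd1 hd2
  | rsH m _ =>
    obtain ⟨hm, hx⟩ := hs
    have h1 := hd1 rfl
    exact ⟨rfl, by omega, Or.inr ⟨mok_mem0 hMV0 hK hm, by omega⟩⟩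
  | rs _ m i _ hl hi =>
    obtain ⟨hm, hly, hx⟩ := loc_ok hl hs
    have h1 := hd1 rfl
    have hE := ee_le hm hly
    refine ⟨rfl, by omega, Or.inr ⟨mok_mem0 hMV0 hK hm, ?_, ?_⟩⟩
    · show i + 1 ≤ EE h m.x m.fin
      omega
    · show x' = bt h t m + (i + 1)
      omega
  | rs' _ m i _ hl hi =>
    obtain ⟨hm, hly, hx⟩ := loc_ok hl hs
    have h1 := hd2 rfl
    have hE := ee_le hm hly
    exact ⟨rfl, by omega, Or.inr ⟨mok_mem0 hMV0 hK hm, by omega⟩⟩

end Pool.Agent.L0h34.UZ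

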